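import Pool.Agent.Q86.SA.Flow

/-!
# Project SA: all nontrivial elements of a surface group are hyperbolic
-/

set_option autoImplicit false

namespace Pool.Agent.Q277.SA

open Matrix Topology UpperHalfPlane Pool.Agent.Q86.SA
open scoped MatrixGroups

lemma det_eq (g : SL(2, ℝ)) : g.1 0 0 * g.1 1 1 - g.1 0 1 * g.1 1 0 = 1 := by
  have := g.2
  rwa [Matrix.det_fin_two] at this

lemma fix_of_lt (g : SL(2, ℝ)) (h : |tr g| < 2) : ∃ z : ℍ, g • z = z := by
  have hdet := det_eq g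
  have htr : tr g = g.1 0 0 + g.1 1 1 := rfl
  set a := g.1 0 0 with ha
  set b := g.1 0 1 with hb
  set c := g.1 1 0 with hc
  set d := g.1 1 1 with hd
  rw [htr] at h
  have h4 : (a + d) ^ 2 < 4 := by
    have := abs_lt.1 h
    nlinarith [this.1, this.2]
  have hc0 : c ≠ 0 := by
    intro h0
    rw [h0] at hdet
    nlinarith [sq_nonneg (a - d)]
  set q : ℝ := Real.sqrt (4 - (a + d) ^ 2) / (2 * |c|) with hq
  have hqpos : 0 < q := by
    apply div_pos (Real.sqrt_pos.2 (by linarith))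
    have := abs_pos.2 hc0
    linarith
  have hq2 : q ^ 2 = (4 - (a + d) ^ 2) / (4 * c ^ 2) := by
    rw [hq, div_pow, Real.sq_sqrt (by linarith), mul_pow, sq_abs]
    norm_num
  set p : ℝ := (a - d) / (2 * c) with hp
  have hre : c * (p ^ 2 - q ^ 2) + (d - a) * p - b = 0 := by
    rw [hq2, hp]
    field_simp
    linear_combination 16 * hdet
  have him : 2 * c * p + (d - a) = 0 := by
    rw [hp]
    field_simp
    ring
  refine ⟨⟨⟨p, q⟩, hqpos⟩, ?_⟩
  ext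
  rw [coe_specialLinearGroup_apply]
  have e1 : ((⟨⟨p, q⟩, hqpos⟩ : ℍ) : ℂ) = ⟨p, q⟩ := rfl
  rw [e1]
  change ((a : ℂ) * ⟨p, q⟩ + (b : ℂ)) / ((c : ℂ) * ⟨p, q⟩ + (d : ℂ)) = ⟨p, q⟩
  have hden : ((c : ℂ) * ⟨p, q⟩ + (d : ℂ)) ≠ 0 := by
    intro h0
    have := congrArg Complex.im h0
    simp at this
    rcases this with h1 | h1
    · exact hc0 h1
    · exact hqpos.ne' h1
  rw [div_eq_iff hden]
  apply Complex.ext
  · simp
    linear_combination -hre
  · simp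
    linear_combination -(q * him)

lemma fin_gap (S : Set ℝ) (hS : S.Finite) : ∃ ε : ℝ, 0 < ε ∧ ∀ x ∈ S, 0 < x → ε ≤ x := by
  induction S, hS using Set.Finite.induction_on with
  | empty => exact ⟨1, one_pos, by simp⟩
  | @insert a s _ _ ih =>
    obtain ⟨ε, h1, h2⟩ := ih
    by_cases ha : 0 < a
    · refine ⟨min ε a, lt_min h1 ha, ?_⟩
      intro x hx hx0
      rcases hx with rfl | hx
      · exact min_le_right _ _
      · exact (min_le_left _ _).trans (h2 x hx hx0)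
    · refine ⟨ε, h1, ?_⟩
      intro x hx hx0
      rcases hx with rfl | hx
      · exact absurd hx0 ha
      · exact h2 x hx hx0

lemma ent_mul (x y : SL(2, ℝ)) (i j : Fin 2) :
    (x * y).1 i j = x.1 i 0 * y.1 0 j + x.1 i 1 * y.1 1 j := by
  have : (x * y).1 = x.1 * y.1 := rfl
  rw [this, Matrix.mul_apply, Fin.sum_univ_two]

lemma inv00 (x : SL(2, ℝ)) : (x⁻¹).1 0 0 = x.1 1 1 := by
  rw [SpecialLinearGroup.SL2_inv_expl]; rfl

lemma inv01 (x : SL(2, ℝ)) : (x⁻¹).1 0 1 = - x.1 0 1 := by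
  rw [SpecialLinearGroup.SL2_inv_expl]; rfl

lemma inv10 (x : SL(2, ℝ)) : (x⁻¹).1 1 0 = - x.1 1 0 := by
  rw [SpecialLinearGroup.SL2_inv_expl]; rfl

lemma inv11 (x : SL(2, ℝ)) : (x⁻¹).1 1 1 = x.1 0 0 := by
  rw [SpecialLinearGroup.SL2_inv_expl]; rfl

/-- an element of trace `2 e` with `e = ± 1` is conjugate to an upper triangular one -/
lemma upper (g : SL(2, ℝ)) (e : ℝ) (he : e ^ 2 = 1) (h : tr g = 2 * e) :
    ∃ x : SL(2, ℝ), (x⁻¹ * g * x).1 0 0 = e ∧ (x⁻¹ * g * x).1 1 0 = 0 ∧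
      (x⁻¹ * g * x).1 1 1 = e := by
  have hdet := det_eq g
  have htr : tr g = g.1 0 0 + g.1 1 1 := rfl
  rw [htr] at h
  -- an eigenvector
  obtain ⟨w1, w2, hw, hw1, hw2⟩ : ∃ w1 w2 : ℝ, 0 < w1 ^ 2 + w2 ^ 2 ∧
      g.1 0 0 * w1 + g.1 0 1 * w2 = e * w1 ∧ g.1 1 0 * w1 + g.1 1 1 * w2 = e * w2 := by
    by_cases hc0 : g.1 1 0 = 0
    · refine ⟨1, 0, by norm_num, ?_, ?_⟩
      · rw [hc0] at hdet
        have h1 : (g.1 0 0 - g.1 1 1) ^ 2 = 0 := by
          have : (g.1 0 0 - g.1 1 1) ^ 2 = (g.1 0 0 + g.1 1 1) ^ 2 -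
            4 * (g.1 0 0 * g.1 1 1 - g.1 0 1 * 0) := by ring
          rw [this, h, hdet]
          linear_combination 4 * he
        have h2 : g.1 0 0 = g.1 1 1 := by
          have := pow_eq_zero_iff (two_ne_zero) |>.1 h1
          linarith
        linarith
      · rw [hc0]; ring
    · refine ⟨e - g.1 1 1, g.1 1 0, by positivity, ?_, by ring⟩
      linear_combination (-1) * hdet + e * h + he
  set n := w1 ^ 2 + w2 ^ 2 with hn
  have hn0 : n ≠ 0 := hw.ne'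
  have hx : Matrix.det !![w1, -w2 / n; w2, w1 / n] = 1 := by
    rw [Matrix.det_fin_two_of]
    field_simp
    rw [hn]
    ring
  obtain ⟨x, hx0, hx1⟩ : ∃ x : SL(2, ℝ), x.1 0 0 = w1 ∧ x.1 1 0 = w2 := ⟨⟨_, hx⟩, rfl, rfl⟩
  have hxd := det_eq x
  have k0 : (x⁻¹ * g * x).1 0 0 = e := by
    rw [mul_assoc, ent_mul, ent_mul, ent_mul, inv00, inv01, hx0, hx1, hw1, hw2]
    rw [hx0, hx1] at hxd
    linear_combination e * hxd
  have k1 : (x⁻¹ * g * x).1 1 0 = 0 := by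
    rw [mul_assoc, ent_mul, ent_mul, ent_mul, inv10, inv11, hx0, hx1, hw1, hw2]
    ring
  have k2 := det_eq (x⁻¹ * g * x)
  refine ⟨x, k0, k1, ?_⟩
  rw [k0, k1] at k2
  linear_combination e * k2 - (x⁻¹ * g * x).1 1 1 * he

lemma smul_neg_one (z : ℍ) : (-1 : SL(2, ℝ)) • z = z := by
  rw [neg_smul_H, one_smul]

lemma conj_flow (T : SL(2, ℝ)) (s : ℝ) :
    ((flow s)⁻¹ * T * flow s).1 0 0 = T.1 0 0 ∧
    ((flow s)⁻¹ * T * flow s).1 0 1 = Real.exp (-s) * T.1 0 1 ∧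
    ((flow s)⁻¹ * T * flow s).1 1 0 = Real.exp s * T.1 1 0 ∧
    ((flow s)⁻¹ * T * flow s).1 1 1 = T.1 1 1 := by
  have f00 : (flow s).1 0 0 = Real.exp (s / 2) := rfl
  have f01 : (flow s).1 0 1 = 0 := rfl
  have f10 : (flow s).1 1 0 = 0 := rfl
  have f11 : (flow s).1 1 1 = Real.exp (-(s / 2)) := rfl
  have hex : Real.exp (s / 2) * Real.exp (-(s / 2)) = 1 := by
    rw [← Real.exp_add]; simp
  have hex2 : Real.exp (-(s / 2)) * Real.exp (-(s / 2)) = Real.exp (-s) := by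
    rw [← Real.exp_add]; congr 1; ring
  have hex3 : Real.exp (s / 2) * Real.exp (s / 2) = Real.exp s := by
    rw [← Real.exp_add]; congr 1; ring
  rw [mul_assoc]
  refine ⟨?_, ?_, ?_, ?_⟩
  · rw [ent_mul, ent_mul, ent_mul, inv00, inv01, f00, f01, f10, f11]
    linear_combination T.1 0 0 * hex
  · rw [ent_mul, ent_mul, ent_mul, inv00, inv01, f01, f11, ← hex2]
    ring
  · rw [ent_mul, ent_mul, ent_mul, inv10, inv11, f00, f10, ← hex3]
    ring
  · rw [ent_mul, ent_mul, ent_mul, inv10, inv11, f00, f01, f10, f11]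
    linear_combination T.1 1 1 * hex

lemma conj_upper (k W : SL(2, ℝ)) (e v : ℝ) (w00 : W.1 0 0 = e) (w01 : W.1 0 1 = v)
    (w10 : W.1 1 0 = 0) (w11 : W.1 1 1 = e) :
    (k * W * k⁻¹).1 0 0 = e - v * (k.1 0 0 * k.1 1 0) ∧
    (k * W * k⁻¹).1 0 1 = v * k.1 0 0 ^ 2 ∧
    (k * W * k⁻¹).1 1 0 = -(v * k.1 1 0 ^ 2) ∧
    (k * W * k⁻¹).1 1 1 = e + v * (k.1 0 0 * k.1 1 0) := by
  have hkd := det_eq k
  refine ⟨?_, ?_, ?_, ?_⟩
  · rw [ent_mul, ent_mul, ent_mul, inv00, inv10, w00, w01, w10, w11]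
    linear_combination e * hkd
  · rw [ent_mul, ent_mul, ent_mul, inv01, inv11, w00, w01, w10, w11]
    ring
  · rw [ent_mul, ent_mul, ent_mul, inv00, inv10, w00, w01, w10, w11]
    ring
  · rw [ent_mul, ent_mul, ent_mul, inv01, inv11, w00, w01, w10, w11]
    linear_combination e * hkd

theorem hyp (h1 : S_COMP) (h2 : S_FIN) : S_HYP := by
  intro Γ hΓ γ hγ hne
  by_contra hcon
  rw [not_lt] at hcon
  rcases lt_or_eq_of_le hcon with hlt | heq
  · obtain ⟨z, hz⟩ := fix_of_lt γ hlt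
    exact hne (hΓ.free γ hγ z hz)
  · -- parabolic case
    obtain ⟨e, he, htr⟩ : ∃ e : ℝ, e ^ 2 = 1 ∧ tr γ = 2 * e := by
      refine ⟨tr γ / 2, ?_, by ring⟩
      rw [div_pow, ← sq_abs, heq]
      norm_num
    have hne' : ∀ δ : SL(2, ℝ), δ.1 0 0 = e → δ.1 1 1 = e → δ.1 0 1 = 0 → δ.1 1 0 = 0 →
        δ ∈ Γ → δ = 1 := by
      intro δ e1 e2 e3 e4 hδ
      have he' : (e - 1) * (e + 1) = 0 := by linear_combination he
      rcases mul_eq_zero.1 he' with h | h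
      · have h : e = 1 := by linarith
        apply Subtype.ext
        ext i j
        fin_cases i <;> fin_cases j
        · exact e1.trans h
        · exact e3
        · exact e4
        · exact e2.trans h
      · have h : e = -1 := by linarith
        have hδ1 : δ = -1 := by
          apply Subtype.ext
          ext i j
          fin_cases i <;> fin_cases j
          · simpa using e1.trans h
          · simpa using e3
          · simpa using e4
          · simpa using e2.trans h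
        apply hΓ.free δ hδ UpperHalfPlane.I
        rw [hδ1, smul_neg_one]
    obtain ⟨x, hx0, hx1, hx2⟩ := upper γ e he htr
    obtain ⟨T, hT⟩ : ∃ T : SL(2, ℝ), T = x⁻¹ * γ * x := ⟨_, rfl⟩
    rw [← hT] at hx0 hx1 hx2
    obtain ⟨u, hu⟩ : ∃ u : ℝ, u = T.1 0 1 := ⟨_, rfl⟩
    obtain ⟨R, hR⟩ := h1 Γ hΓ
    have hR0 : 0 ≤ R := by
      obtain ⟨_, _, k, _, hk⟩ := hR 1
      exact (abs_nonneg _).trans (hk 0 0)
    have hfin := h2 Γ hΓ (1 + |u| * R ^ 2)
    set F := {γ : SL(2, ℝ) | γ ∈ Γ ∧ Bd (1 + |u| * R ^ 2) γ} with hF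
    obtain ⟨ε, hε, hgap⟩ := fin_gap _ (hfin.image (fun g : SL(2, ℝ) => |g.1 0 1| + |g.1 1 0|))
    have heabs : |e| = 1 := by
      rw [← sq_abs] at he
      nlinarith [abs_nonneg e, sq_nonneg (|e| - 1)]
    -- choose the time
    obtain ⟨s, hs0, hs⟩ : ∃ s : ℝ, 0 ≤ s ∧ Real.exp (-s) * (2 * (|u| + 1) * (R ^ 2 + 1)) < ε := by
      have ht : Filter.Tendsto (fun s : ℝ => Real.exp (-s) * (2 * (|u| + 1) * (R ^ 2 + 1)))
          Filter.atTop (𝓝 0) := by
        simpa using Real.tendsto_exp_neg_atTop_nhds_zero.mul_const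
          (2 * (|u| + 1) * (R ^ 2 + 1))
      have := ht.eventually (gt_mem_nhds hε)
      obtain ⟨s, hs, hs'⟩ := (this.and (Filter.eventually_ge_atTop 0)).exists
      exact ⟨s, hs', hs⟩
    obtain ⟨δ, hδ, k, hk, hkR⟩ := hR (x * flow s)
    have hconj : δ⁻¹ * γ * δ = k * ((flow s)⁻¹ * T * flow s) * k⁻¹ := by
      have : δ = x * flow s * k⁻¹ := by rw [hk]; group
      rw [this, hT]
      group
    obtain ⟨v, hv⟩ : ∃ v : ℝ, v = Real.exp (-s) * u := ⟨_, rfl⟩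
    obtain ⟨W, hW⟩ : ∃ W : SL(2, ℝ), W = (flow s)⁻¹ * T * flow s := ⟨_, rfl⟩
    obtain ⟨w00, w01, w10, w11⟩ := conj_flow T s
    rw [← hW, hx0] at w00
    rw [← hW, ← hu, ← hv] at w01
    rw [← hW, hx1, mul_zero] at w10
    rw [← hW, hx2] at w11
    rw [← hW] at hconj
    have hkd := det_eq k
    obtain ⟨g00, g01, g10, g11⟩ := conj_upper k W e v w00 w01 w10 w11
    rw [← hconj] at g00 g01 g10 g11
    have hmem : δ⁻¹ * γ * δ ∈ Γ := Γ.mul_mem (Γ.mul_mem (Γ.inv_mem hδ) hγ) hδ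
    have hconj1 : δ⁻¹ * γ * δ ≠ 1 := by
      intro h0
      apply hne
      have : γ = δ * (δ⁻¹ * γ * δ) * δ⁻¹ := by group
      rw [this, h0]
      group
    have hvu : |v| ≤ |u| := by
      rw [hv, abs_mul, abs_of_pos (Real.exp_pos _)]
      have : Real.exp (-s) ≤ 1 := Real.exp_le_one_iff.2 (by linarith)
      nlinarith [abs_nonneg u]
    have hk00 : |k.1 0 0| ≤ R := hkR 0 0
    have hk10 : |k.1 1 0| ≤ R := hkR 1 0
    have hprod : |v * (k.1 0 0 * k.1 1 0)| ≤ |u| * R ^ 2 := by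
      rw [abs_mul, abs_mul, sq]
      gcongr
    have hs00 : |v * k.1 0 0 ^ 2| ≤ |u| * R ^ 2 := by
      rw [abs_mul, abs_pow]
      gcongr
    have hs10 : |v * k.1 1 0 ^ 2| ≤ |u| * R ^ 2 := by
      rw [abs_mul, abs_pow]
      gcongr
    have hBd : Bd (1 + |u| * R ^ 2) (δ⁻¹ * γ * δ) := by
      intro i j
      fin_cases i <;> fin_cases j
      · change |(δ⁻¹ * γ * δ).1 0 0| ≤ _
        rw [g00]
        refine (abs_sub _ _).trans ?_
        rw [heabs]
        linarith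
      · change |(δ⁻¹ * γ * δ).1 0 1| ≤ _
        rw [g01]
        linarith
      · change |(δ⁻¹ * γ * δ).1 1 0| ≤ _
        rw [g10, abs_neg]
        linarith
      · change |(δ⁻¹ * γ * δ).1 1 1| ≤ _
        rw [g11]
        refine (abs_add_le _ _).trans ?_
        rw [heabs]
        linarith
    have hle : ∀ y : ℝ, |(δ⁻¹ * γ * δ).1 0 1| + |(δ⁻¹ * γ * δ).1 1 0| = y → 0 < y → ε ≤ y := by
      intro y hy hy0
      exact hgap y ⟨δ⁻¹ * γ * δ, ⟨hmem, hBd⟩, hy⟩ hy0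
    have hsum := hle _ rfl
    rw [g01, g10, abs_neg, abs_mul, abs_mul, abs_pow, abs_pow, sq_abs, sq_abs] at hsum
    have hkk : 0 < k.1 0 0 ^ 2 + k.1 1 0 ^ 2 := by
      by_contra h0
      have e1 : k.1 0 0 = 0 := by nlinarith [sq_nonneg (k.1 0 0), sq_nonneg (k.1 1 0)]
      have e2 : k.1 1 0 = 0 := by nlinarith [sq_nonneg (k.1 0 0), sq_nonneg (k.1 1 0)]
      rw [e1, e2] at hkd
      norm_num at hkd
    have hv0 : v ≠ 0 := by
      intro hv0
      apply hconj1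
      apply hne' _ _ _ _ _ hmem
      · rw [g00, hv0]; ring
      · rw [g11, hv0]; ring
      · rw [g01, hv0]; ring
      · rw [g10, hv0]; ring
    have hfin2 := hsum (by
      have := abs_pos.2 hv0
      have e3 : |v| * k.1 0 0 ^ 2 + |v| * k.1 1 0 ^ 2 = |v| * (k.1 0 0 ^ 2 + k.1 1 0 ^ 2) := by ring
      rw [e3]
      exact mul_pos this hkk)
    have hvabs : |v| = Real.exp (-s) * |u| := by
      rw [hv, abs_mul, abs_of_pos (Real.exp_pos _)]
    have hb0 : k.1 0 0 ^ 2 ≤ R ^ 2 := by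
      rw [← sq_abs]
      gcongr
    have hb1 : k.1 1 0 ^ 2 ≤ R ^ 2 := by
      rw [← sq_abs]
      gcongr
    have hfin3 : |v| * k.1 0 0 ^ 2 + |v| * k.1 1 0 ^ 2 ≤
        Real.exp (-s) * (2 * (|u| + 1) * (R ^ 2 + 1)) := by
      calc |v| * k.1 0 0 ^ 2 + |v| * k.1 1 0 ^ 2 ≤ |v| * R ^ 2 + |v| * R ^ 2 := by gcongr
        _ = Real.exp (-s) * (2 * |u| * R ^ 2) := by rw [hvabs]; ring
        _ ≤ Real.exp (-s) * (2 * (|u| + 1) * (R ^ 2 + 1)) := by
          gcongr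
          · linarith
          · linarith
    linarith

end Pool.Agent.Q277.SA
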