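import Pool.Agent.Q277.SA.HYP

/-!
# Project SA: there is a simple closed geodesic
-/

set_option autoImplicit false

namespace Pool.Agent.Q277.SA

open Matrix Topology UpperHalfPlane Pool.Agent.Q86.SA
open scoped MatrixGroups

lemma fix_I (h : SL(2, ℝ)) (hh : h • (UpperHalfPlane.I : ℍ) = UpperHalfPlane.I) :
    h.1 0 0 = h.1 1 1 ∧ h.1 0 1 = - h.1 1 0 := by
  have h1 : ((h • (UpperHalfPlane.I : ℍ) : ℍ) : ℂ) = ((UpperHalfPlane.I : ℍ) : ℂ) :=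
    congrArg (fun z : ℍ => (z : ℂ)) hh
  rw [coe_specialLinearGroup_apply, UpperHalfPlane.coe_I] at h1
  have hdet := det_eq h
  have hden : ((h.1 1 0 : ℂ) * Complex.I + (h.1 1 1 : ℂ)) ≠ 0 := by
    intro h0
    have e1 := congrArg Complex.im h0
    have e2 := congrArg Complex.re h0
    simp at e1 e2
    rw [e1, e2] at hdet
    norm_num at hdet
  have h2 : ((h.1 0 0 : ℂ) * Complex.I + (h.1 0 1 : ℂ)) =
      Complex.I * ((h.1 1 0 : ℂ) * Complex.I + (h.1 1 1 : ℂ)) := (div_eq_iff hden).1 h1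
  have e1 := congrArg Complex.im h2
  have e2 := congrArg Complex.re h2
  simp at e1 e2
  exact ⟨e1, e2⟩

lemma zpow_flow {x : SL(2, ℝ)} {ℓ : ℝ} {γ : SL(2, ℝ)}
    (h : γ * x = x * flow ℓ ∨ γ * x = -(x * flow ℓ)) (n : ℤ) :
    γ ^ n * x = x * flow (n * ℓ) ∨ γ ^ n * x = -(x * flow (n * ℓ)) := by
  obtain ⟨m, rfl | rfl⟩ := n.eq_nat_or_neg
  · have := pow_flow h m
    rw [zpow_natCast]
    exact_mod_cast this
  · have h1 := pow_flow h m
    have h2 : flow (m * ℓ) * flow (((-(m : ℤ) : ℤ) : ℝ) * ℓ) = 1 := by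
      rw [← flow_add, ← flow_zero]
      congr 1
      push_cast
      ring
    rw [_root_.zpow_neg, zpow_natCast]
    rcases h1 with h1 | h1
    · left
      rw [inv_mul_eq_iff_eq_mul, ← mul_assoc, h1, mul_assoc, h2, mul_one]
    · right
      rw [inv_mul_eq_iff_eq_mul, mul_neg, ← mul_assoc, h1, neg_mul, mul_assoc, h2, mul_one, neg_neg]

theorem sys (h1 : S_COMP) (h2 : S_HYP) (h3 : S_DIAG) (h4 : S_SPEC) : S_SYS := by
  intro Γ hΓ
  -- the group is not trivial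
  obtain ⟨a, ha, hane⟩ : ∃ a ∈ Γ, a ≠ 1 := by
    by_contra hcon
    push Not at hcon
    obtain ⟨R, hR⟩ := h1 Γ hΓ
    obtain ⟨γ, hγ, k, hk, hkR⟩ := hR (flow (2 * R))
    rw [hcon γ hγ, one_mul] at hk
    have h5 := hkR 0 0
    rw [← hk] at h5
    have h6 : (flow (2 * R)).1 0 0 = Real.exp (2 * R / 2) := rfl
    rw [h6, abs_of_pos (Real.exp_pos _)] at h5
    have := Real.add_one_le_exp (2 * R / 2)
    linarith
  -- an element of minimal trace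
  obtain ⟨g0, hg0, hg0ne, hmin⟩ : ∃ g0 ∈ Γ, g0 ≠ 1 ∧ ∀ g ∈ Γ, g ≠ 1 → |tr g0| ≤ |tr g| := by
    have hfin := h4 Γ hΓ |tr a|
    have hfin' : {t : ℝ | ∃ γ ∈ Γ, γ ≠ 1 ∧ tr γ = t ∧ |t| ≤ |tr a|}.Finite := by
      apply hfin.subset
      rintro t ⟨γ, hγ, _, h5, h6⟩
      exact ⟨γ, hγ, h5, h6⟩
    obtain ⟨t, ⟨g0, hg0, hne, ht, htR⟩, hmin⟩ := Set.exists_min_image _ (fun t : ℝ => |t|) hfin'
      ⟨tr a, a, ha, hane, rfl, le_rfl⟩
    refine ⟨g0, hg0, hne, ?_⟩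
    intro g hg hgne
    rw [ht]
    by_cases hc : |tr g| ≤ |tr a|
    · exact hmin (tr g) ⟨g, hg, hgne, rfl, hc⟩
    · push Not at hc
      exact htR.trans hc.le
  obtain ⟨x, ℓ, hℓ, hx, htr⟩ := h3 g0 (h2 Γ hΓ g0 hg0 hg0ne)
  refine ⟨x, ℓ, hℓ, ⟨g0, hg0, hx⟩, ?_⟩
  rintro s t ⟨γ, hγ, hst⟩
  set n : ℤ := round ((t - s) / ℓ) with hn
  obtain ⟨u, hu⟩ : ∃ u : ℝ, u = t - s - n * ℓ := ⟨_, rfl⟩
  have hul : |u| ≤ ℓ / 2 := by
    have h5 := abs_sub_round ((t - s) / ℓ)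
    have h6 : u = ((t - s) / ℓ - n) * ℓ := by
      rw [hu]
      field_simp
    rw [h6, abs_mul, abs_of_pos hℓ]
    nlinarith
  obtain ⟨y, hy⟩ : ∃ y : SL(2, ℝ), y = x * flow s := ⟨_, rfl⟩
  obtain ⟨g1, hg1⟩ : ∃ g1 : SL(2, ℝ), g1 = g0 ^ (-n) * γ := ⟨_, rfl⟩
  have hg1Γ : g1 ∈ Γ := by
    rw [hg1]
    exact Γ.mul_mem (Γ.zpow_mem hg0 _) hγ
  have hg1y : (g1 * y) • (UpperHalfPlane.I : ℍ) = (y * flow u) • (UpperHalfPlane.I : ℍ) := by
    rw [mul_smul, hg1, mul_smul, hy, hst, ← mul_smul, ← mul_assoc]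
    have h5 : flow (((-n : ℤ) : ℝ) * ℓ) * flow t = flow s * flow u := by
      rw [← flow_add, ← flow_add, hu]
      congr 1
      push_cast
      ring
    rcases zpow_flow hx (-n) with h6 | h6
    · rw [h6, mul_assoc, h5, ← mul_assoc]
    · rw [h6, neg_mul, mul_assoc, h5, ← mul_assoc, neg_smul_H]
  obtain ⟨κ, hκ⟩ : ∃ κ : SL(2, ℝ), κ = (y * flow u)⁻¹ * (g1 * y) := ⟨_, rfl⟩
  have hκI : κ • (UpperHalfPlane.I : ℍ) = UpperHalfPlane.I := by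
    rw [hκ, mul_smul, hg1y, inv_smul_smul]
  obtain ⟨k1, k2⟩ := fix_I κ hκI
  have hκd := det_eq κ
  rw [← k1, k2] at hκd
  have hc1 : |κ.1 0 0| ≤ 1 := by
    rw [← sq_le_one_iff_abs_le_one]
    nlinarith [sq_nonneg (κ.1 1 0)]
  have hg1c : g1 = y * (flow u * κ) * y⁻¹ := by
    rw [hκ]
    group
  have htr1 : tr g1 = 2 * Real.cosh (u / 2) * κ.1 0 0 := by
    rw [hg1c, tr_conj]
    have f00 : (flow u).1 0 0 = Real.exp (u / 2) := rfl
    have f01 : (flow u).1 0 1 = 0 := rfl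
    have f10 : (flow u).1 1 0 = 0 := rfl
    have f11 : (flow u).1 1 1 = Real.exp (-(u / 2)) := rfl
    rw [tr, ent_mul, ent_mul, f00, f01, f10, f11, ← k1, Real.cosh_eq]
    ring
  have hlt : |tr g1| < |tr g0| := by
    rw [htr1, htr, abs_mul, abs_of_pos (by positivity)]
    have h5 : Real.cosh (u / 2) < Real.cosh (ℓ / 2) := by
      rw [Real.cosh_lt_cosh, abs_div, abs_div, abs_of_pos hℓ, abs_two]
      linarith
    have h6 := Real.cosh_pos (u / 2)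
    nlinarith
  have hg11 : g1 = 1 := by
    by_contra hne
    exact absurd (hmin g1 hg1Γ hne) (not_le.2 hlt)
  rw [hg11, one_mul, mul_smul, smul_left_cancel_iff] at hg1y
  obtain ⟨k3, _⟩ := fix_I (flow u) hg1y.symm
  have h5 : Real.exp (u / 2) = Real.exp (-(u / 2)) := k3
  have h6 := Real.exp_injective h5
  have h7 : u = 0 := by linarith
  refine ⟨n, ?_⟩
  rw [h7] at hu
  linarith

end Pool.Agent.Q277.SA
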